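import Pool.Agent.Helper52.GPM.S

/-!
# Gilbert-Pollak, chapter MSTF: pinch at a vertex
-/

namespace Pool.Agent.Helper90.GPM

open Relation Classical Pool.Agent.Helper18.GP Pool.Agent.Helper52.GPM

private theorem closed_of {α : Type*} {r : α → α → Prop} {U : α → Prop}
    (h : ∀ x y, r x y → (U x ↔ U y)) {x y : α} (hxy : EqvGen r x y) : U x ↔ U y := by
  induction hxy with
  | rel x y h1 => exact h x y h1
  | refl x => exact Iff.rfl
  | symm x y _ ih => exact ih.symm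
  | trans x y z _ _ ih1 ih2 => exact ih1.trans ih2

private theorem eg_mono {α : Type*} {r s : α → α → Prop} (h : ∀ x y, r x y → s x y) {x y : α}
    (hxy : EqvGen r x y) : EqvGen s x y := by
  induction hxy with
  | rel x y h1 => exact EqvGen.rel _ _ (h x y h1)
  | refl x => exact EqvGen.refl x
  | symm x y _ ih => exact EqvGen.symm _ _ ih
  | trans x y z _ _ ih1 ih2 => exact EqvGen.trans _ _ _ ih1 ih2

theorem mod_stWedge (hE : mExit) (hB : mBd) (hFo : mFollow) (hU : mUnion) (hP : stPocket) :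
    stWedge := by
  intro N V A F d hd hFA a ha g hg c hc hccw hmax
  obtain ⟨h0g, hgc⟩ := hccw
  have hga : g ≠ a := cyc_pos.1 h0g
  have hca : c ≠ a := cyc_pos.1 (by omega : 0 < cyc a c)
  have hcg : c ≠ g := by
    rintro rfl
    omega
  refine ⟨?_, fun hA => ?_, fun hA => ?_⟩
  swap
  · exact hP N V A F d hd hFA a ha g hg hga.symm hA
  swap
  · exact hP N V A F d hd hFA g hg c hc hcg.symm hA
  -- the two arcs
  set S := Arc V a g with hS
  set T := Arc V g c with hT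
  have mS : ∀ v, v ∈ S ↔ v ∈ V ∧ cyc a v ≤ cyc a g := fun v => mem_Arc
  have mT : ∀ v, v ∈ T ↔ v ∈ V ∧ cyc a g ≤ cyc a v := by
    intro v
    rw [hT, mem_Arc]
    apply and_congr_right
    intro hv
    have h1 := hmax v hv
    have h2 := cyc_lt a c
    rw [cyc_change_le hgc.le]
    rcases Nat.lt_or_ge (cyc a v) (cyc a g) with h | h
    · rw [cyc_change_gt h]
      omega
    · rw [cyc_change_le h]
      omega
  have haS : a ∈ S := left_mem_Arc ha
  have hgS : g ∈ S := right_mem_Arc hg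
  have hgT : g ∈ T := left_mem_Arc hg
  have hcT : c ∈ T := right_mem_Arc hc
  have hST : ∀ v ∈ V, v ∈ S ∨ v ∈ T := by
    intro v hv
    rw [mS, mT]
    rcases Nat.le_total (cyc a v) (cyc a g) with h | h
    · exact Or.inl ⟨hv, h⟩
    · exact Or.inr ⟨hv, h⟩
  -- exits
  have e1 : ∀ x y, (F x y ∨ F y x) → x ∈ S → y ∉ S → x = a ∨ x = g := fun x y h hx hy =>
    hE N V a g x y ha hg hga.symm (h.imp (hFA.FB x y) (hFA.FB y x)) hx hy
  have e2 : ∀ x y, (F x y ∨ F y x) → x ∈ T → y ∉ T → x = g ∨ x = c := fun x y h hx hy =>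
    hE N V g c x y hg hc hcg.symm (h.imp (hFA.FB x y) (hFA.FB y x)) hx hy
  have bdS : ∀ x y, Bd V x y → Bd V y x := by
    rintro x y ⟨h1, h2, h3, h4⟩
    exact ⟨h2, h1, h3.symm, h4.symm⟩
  have b1 : ∀ y, (F a y ∨ F y a) → y ∉ S → y = c := by
    intro y h hy
    have h1 : Bd V a y := by
      rcases h with h | h
      · exact hFA.FB _ _ h
      · exact bdS _ _ (hFA.FB _ _ h)
    obtain ⟨-, hyV, -, h2⟩ := h1
    by_contra hne
    have h3 : cyc a g < cyc a y := by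
      by_contra h4
      exact hy ((mS y).2 ⟨hyV, by omega⟩)
    rcases h2 with h2 | h2
    · exact h2 g hg ⟨h0g, h3⟩
    · have h4 := hmax y hyV
      have h5 : cyc a y ≠ cyc a c := fun h6 => hne (cyc_inj h6)
      have h6 := cyc_lt a c
      have h7 : y ≠ a := cyc_pos.1 (by omega : 0 < cyc a y)
      refine h2 c hc ⟨?_, ?_⟩
      · rw [cyc_change_le h4]
        omega
      · rw [cyc_change_le h4, cyc_back h7]
        omega
  have b2 : ∀ y, (F c y ∨ F y c) → y ∉ T → y = a := by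
    intro y h hy
    have h1 : Bd V c y := by
      rcases h with h | h
      · exact hFA.FB _ _ h
      · exact bdS _ _ (hFA.FB _ _ h)
    obtain ⟨-, hyV, -, h2⟩ := h1
    by_contra hne
    have h3 : cyc a y < cyc a g := by
      by_contra h4
      exact hy ((mT y).2 ⟨hyV, by omega⟩)
    have h4 : 0 < cyc a y := cyc_pos.2 hne
    have h6 := cyc_lt a c
    rcases h2 with h2 | h2
    · refine h2 a ha ⟨cyc_pos.2 hca.symm, ?_⟩
      rw [cyc_back hca, cyc_change_gt (by omega : cyc a y < cyc a c)]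
      omega
    · refine h2 g hg ⟨?_, ?_⟩
      · rw [cyc_change_le h3.le]
        omega
      · rw [cyc_change_le h3.le, cyc_change_le (by omega : cyc a y ≤ cyc a c)]
        omega
  -- restrictions
  have fS : ∀ x y, (F x y ∨ F y x) → x ∈ S → y ∈ S → EqvGen (Fr F S) x y := by
    intro x y h hx hy
    rcases h with h | h
    · exact EqvGen.rel _ _ ⟨h, hx, hy⟩
    · exact EqvGen.symm _ _ (EqvGen.rel _ _ ⟨h, hy, hx⟩)
  have fT : ∀ x y, (F x y ∨ F y x) → x ∈ T → y ∈ T → EqvGen (Fr F T) x y := by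
    intro x y h hx hy
    rcases h with h | h
    · exact EqvGen.rel _ _ ⟨h, hx, hy⟩
    · exact EqvGen.symm _ _ (EqvGen.rel _ _ ⟨h, hy, hx⟩)
  -- reaching active vertices
  have hR : (∃ x ∈ insert g (A ∩ S), EqvGen (Fr F S) a x) ∨
      ∃ x ∈ insert g (A ∩ T), EqvGen (Fr F T) c x := by
    by_contra hcon
    push Not at hcon
    obtain ⟨n1, n2⟩ := hcon
    obtain ⟨α, hα, hpath⟩ := hFA.cov a ha
    have step : ∀ x y, (F x y ∨ F y x) →
        ((x ∈ S ∧ EqvGen (Fr F S) a x) ∨ (x ∈ T ∧ EqvGen (Fr F T) c x)) →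
        ((y ∈ S ∧ EqvGen (Fr F S) a y) ∨ (y ∈ T ∧ EqvGen (Fr F T) c y)) := by
      rintro x y h (⟨hx, hax⟩ | ⟨hx, hcx⟩)
      · by_cases hy : y ∈ S
        · exact Or.inl ⟨hy, EqvGen.trans _ _ _ hax (fS x y h hx hy)⟩
        · rcases e1 x y h hx hy with rfl | rfl
          · rw [b1 y h hy]
            exact Or.inr ⟨hcT, EqvGen.refl _⟩
          · exact absurd hax (n1 _ (Finset.mem_insert_self _ _))
      · by_cases hy : y ∈ T
        · exact Or.inr ⟨hy, EqvGen.trans _ _ _ hcx (fT x y h hx hy)⟩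
        · rcases e2 x y h hx hy with rfl | rfl
          · exact absurd hcx (n2 _ (Finset.mem_insert_self _ _))
          · rw [b2 y h hy]
            exact Or.inl ⟨haS, EqvGen.refl _⟩
    have h1 := (closed_of (U := fun x => (x ∈ S ∧ EqvGen (Fr F S) a x) ∨
      (x ∈ T ∧ EqvGen (Fr F T) c x)) (fun x y h => ⟨step x y (Or.inl h), step y x (Or.inr h)⟩)
      hpath).1 (Or.inl ⟨haS, EqvGen.refl _⟩)
    rcases h1 with ⟨h2, h3⟩ | ⟨h2, h3⟩
    · exact n1 α (Finset.mem_insert_of_mem (Finset.mem_inter.2 ⟨hα, h2⟩)) h3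
    · exact n2 α (Finset.mem_insert_of_mem (Finset.mem_inter.2 ⟨hα, h2⟩)) h3
  -- active sets
  have av1 : insert g (A ∩ S) ⊆ S :=
    Finset.insert_subset hgS Finset.inter_subset_right
  have av2 : insert g (A ∩ T) ⊆ T :=
    Finset.insert_subset hgT Finset.inter_subset_right
  -- sides
  obtain ⟨s1, s2, -⟩ := hB N V a g ha hg hga.symm
  obtain ⟨t1, t2, -⟩ := hB N V g c hg hc hcg.symm
  have fb1 : ∀ x y, Fr F S x y → Bd S x y := fun x y h => s1 x y (hFA.FB _ _ h.1) h.2.1 h.2.2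
  have fb2 : ∀ x y, Fr F T x y → Bd T x y := fun x y h => t1 x y (hFA.FB _ _ h.1) h.2.1 h.2.2
  -- coverings
  have cv1 : ∀ v ∈ S, (∃ x ∈ insert g (A ∩ S), EqvGen (Fr F S) v x) ∨ EqvGen (Fr F S) v a := by
    intro v hv
    obtain ⟨α, hα, hpath⟩ := hFA.cov v (Arc_sub _ _ _ hv)
    rcases hFo N V F hFA.FB a ha g hg hga.symm v hv α hpath with ⟨h1, h2⟩ | h1 | h1
    · exact Or.inl ⟨α, Finset.mem_insert_of_mem (Finset.mem_inter.2 ⟨hα, h1⟩), h2⟩
    · exact Or.inr h1
    · exact Or.inl ⟨g, Finset.mem_insert_self _ _, h1⟩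
  have cv2 : ∀ v ∈ T, (∃ x ∈ insert g (A ∩ T), EqvGen (Fr F T) v x) ∨ EqvGen (Fr F T) v c := by
    intro v hv
    obtain ⟨α, hα, hpath⟩ := hFA.cov v (Arc_sub _ _ _ hv)
    rcases hFo N V F hFA.FB g hg c hc hcg.symm v hv α hpath with ⟨h1, h2⟩ | h1 | h1
    · exact Or.inl ⟨α, Finset.mem_insert_of_mem (Finset.mem_inter.2 ⟨hα, h1⟩), h2⟩
    · exact Or.inl ⟨g, Finset.mem_insert_self _ _, h1⟩
    · exact Or.inr h1
  have cv1' : (∃ x ∈ insert g (A ∩ S), EqvGen (Fr F S) a x) →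
      ∀ v ∈ S, ∃ x ∈ insert g (A ∩ S), EqvGen (Fr F S) v x := by
    rintro ⟨x, hx, hax⟩ v hv
    rcases cv1 v hv with h | h
    · exact h
    · exact ⟨x, hx, EqvGen.trans _ _ _ h hax⟩
  have cv2' : (∃ x ∈ insert g (A ∩ T), EqvGen (Fr F T) c x) →
      ∀ v ∈ T, ∃ x ∈ insert g (A ∩ T), EqvGen (Fr F T) v x := by
    rintro ⟨x, hx, hax⟩ v hv
    rcases cv2 v hv with h | h
    · exact h
    · exact ⟨x, hx, EqvGen.trans _ _ _ h hax⟩
  have hd0 : ∀ a ∈ V, ∀ b ∈ V, 0 ≤ d a b := fun a ha b hb => (hd a ha b hb).1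
  by_cases H : F a c ∨ F c a
  · rcases hR with R1 | R2
    · -- `F₁ = Fr F S`, `F₂ = Fa (Fr F T) g c`
      refine ⟨Fr F S, Fa (Fr F T) g c, ⟨av1, fb1, cv1' R1⟩, ⟨av2, ?_, ?_⟩, ?_⟩
      · rintro x y (h | ⟨rfl, rfl⟩)
        · exact fb2 x y h
        · exact t2
      · intro v hv
        rcases cv2 v hv with ⟨x, hx, h⟩ | h
        · exact ⟨x, hx, eg_mono (fun _ _ h => Or.inl h) h⟩
        · exact ⟨g, Finset.mem_insert_self _ _, EqvGen.trans _ _ _
            (eg_mono (fun _ _ h => Or.inl h) h)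
            (EqvGen.symm _ _ (EqvGen.rel _ _ (Or.inr ⟨rfl, rfl⟩)))⟩
      · refine hU N V S T F (Fr F S) (Fa (Fr F T) g c) d hd0 (Arc_sub _ _ _) (Arc_sub _ _ _) hST
          ⟨g, hgS, hgT⟩ (fun x y h => h.1) ?_
        rintro m hm x y (h | ⟨rfl, rfl⟩)
        · exact EqvGen.rel _ _ (Or.inr h.1)
        · have h1 : EqvGen (fun x y => (x, y) ∈ m ∨ F x y) x a :=
            eg_mono (fun _ _ h => h.imp_right fun h => h.1) (hm.2 x hgS a haS)
          refine EqvGen.trans _ _ _ h1 ?_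
          rcases H with H | H
          · exact EqvGen.rel _ _ (Or.inr H)
          · exact EqvGen.symm _ _ (EqvGen.rel _ _ (Or.inr H))
    · refine ⟨Fa (Fr F S) a g, Fr F T, ⟨av1, ?_, ?_⟩, ⟨av2, fb2, cv2' R2⟩, ?_⟩
      · rintro x y (h | ⟨rfl, rfl⟩)
        · exact fb1 x y h
        · exact s2
      · intro v hv
        rcases cv1 v hv with ⟨x, hx, h⟩ | h
        · exact ⟨x, hx, eg_mono (fun _ _ h => Or.inl h) h⟩
        · exact ⟨g, Finset.mem_insert_self _ _, EqvGen.trans _ _ _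
            (eg_mono (fun _ _ h => Or.inl h) h) (EqvGen.rel _ _ (Or.inr ⟨rfl, rfl⟩))⟩
      · rw [add_comm]
        refine hU N V T S F (Fr F T) (Fa (Fr F S) a g) d hd0 (Arc_sub _ _ _) (Arc_sub _ _ _)
          (fun v hv => (hST v hv).symm) ⟨g, hgT, hgS⟩ (fun x y h => h.1) ?_
        rintro m hm x y (h | ⟨rfl, rfl⟩)
        · exact EqvGen.rel _ _ (Or.inr h.1)
        · have h1 : EqvGen (fun x y => (x, y) ∈ m ∨ F x y) c y :=
            eg_mono (fun _ _ h => h.imp_right fun h => h.1) (hm.2 c hcT y hgT)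
          refine EqvGen.trans _ _ _ ?_ h1
          rcases H with H | H
          · exact EqvGen.rel _ _ (Or.inr H)
          · exact EqvGen.symm _ _ (EqvGen.rel _ _ (Or.inr H))
  · -- no side `ac`
    have R1 : ∃ x ∈ insert g (A ∩ S), EqvGen (Fr F S) a x := by
      by_contra n1
      push Not at n1
      obtain ⟨α, hα, hpath⟩ := hFA.cov a ha
      have step : ∀ x y, (F x y ∨ F y x) → (x ∈ S ∧ EqvGen (Fr F S) a x) →
          (y ∈ S ∧ EqvGen (Fr F S) a y) := by
        rintro x y h ⟨hx, hax⟩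
        by_cases hy : y ∈ S
        · exact ⟨hy, EqvGen.trans _ _ _ hax (fS x y h hx hy)⟩
        · exfalso
          rcases e1 x y h hx hy with rfl | rfl
          · rw [b1 y h hy] at h
            exact H h
          · exact absurd hax (n1 _ (Finset.mem_insert_self _ _))
      obtain ⟨h2, h3⟩ := (closed_of (U := fun x => x ∈ S ∧ EqvGen (Fr F S) a x)
        (fun x y h => ⟨step x y (Or.inl h), step y x (Or.inr h)⟩) hpath).1 ⟨haS, EqvGen.refl _⟩
      exact n1 α (Finset.mem_insert_of_mem (Finset.mem_inter.2 ⟨hα, h2⟩)) h3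
    have R2 : ∃ x ∈ insert g (A ∩ T), EqvGen (Fr F T) c x := by
      by_contra n2
      push Not at n2
      obtain ⟨α, hα, hpath⟩ := hFA.cov c hc
      have step : ∀ x y, (F x y ∨ F y x) → (x ∈ T ∧ EqvGen (Fr F T) c x) →
          (y ∈ T ∧ EqvGen (Fr F T) c y) := by
        rintro x y h ⟨hx, hcx⟩
        by_cases hy : y ∈ T
        · exact ⟨hy, EqvGen.trans _ _ _ hcx (fT x y h hx hy)⟩
        · exfalso
          rcases e2 x y h hx hy with rfl | rfl
          · exact absurd hcx (n2 _ (Finset.mem_insert_self _ _))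
          · rw [b2 y h hy] at h
            exact H h.symm
      obtain ⟨h2, h3⟩ := (closed_of (U := fun x => x ∈ T ∧ EqvGen (Fr F T) c x)
        (fun x y h => ⟨step x y (Or.inl h), step y x (Or.inr h)⟩) hpath).1 ⟨hcT, EqvGen.refl _⟩
      exact n2 α (Finset.mem_insert_of_mem (Finset.mem_inter.2 ⟨hα, h2⟩)) h3
    refine ⟨Fr F S, Fr F T, ⟨av1, fb1, cv1' R1⟩, ⟨av2, fb2, cv2' R2⟩, ?_⟩
    refine hU N V S T F (Fr F S) (Fr F T) d hd0 (Arc_sub _ _ _) (Arc_sub _ _ _) hST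
      ⟨g, hgS, hgT⟩ (fun x y h => h.1) ?_
    intro m _ x y h
    exact EqvGen.rel _ _ (Or.inr h.1)

end Pool.Agent.Helper90.GPM
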